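import Pool.Agent.J4H4.LG.Bas
import Pool.Agent.J4H1.JL.Had2

set_option autoImplicit false

/-!
# The criterion: Laguerre inequalities of all orders and zeros on the line
-/

namespace Pool.Agent.J4H7.LG

open Complex Set Filter Topology Polynomial
open scoped ComplexConjugate
open Pool.Agent.J4H4.LG
open Pool.Agent.J4H34.HF (GrC)
open Pool.Agent.J4H1.JL (EG RA t_had2)

noncomputable section

/-! ## Real polynomials with real roots -/

lemma real_fac (P : ℝ[X]) (hP : ∀ z : ℂ, aeval z P = 0 → z.im = 0) : ∃ (c : ℝ) (s : Multiset ℝ), ∀ z : ℂ,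
    aeval z P = c * (s.map (fun x : ℝ => z - (x : ℂ))).prod := by
  by_cases hP0 : P = 0
  · exact ⟨0, 0, fun z => by simp [hP0]⟩
  obtain ⟨Q, hQ⟩ : ∃ Q : ℂ[X], Q = P.map (algebraMap ℝ ℂ) := ⟨_, rfl⟩
  have hev : ∀ w : ℂ, aeval w P = eval w Q := by
    intro w
    rw [hQ, eval_map, aeval_def]
  have hQ0 : Q ≠ 0 := by
    rw [hQ]
    exact (Polynomial.map_ne_zero_iff (algebraMap ℝ ℂ).injective).mpr hP0
  refine ⟨P.leadingCoeff, Q.roots.map Complex.re, fun z => ?_⟩
  have h1 := (IsAlgClosed.splits Q).eq_prod_roots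
  have h2 : Q.leadingCoeff = (P.leadingCoeff : ℂ) := by
    rw [hQ, leadingCoeff_map]
    rfl
  have h5 := congrArg (eval z) h1
  rw [eval_mul, eval_C, h2, eval_multiset_prod, Multiset.map_map] at h5
  rw [hev, h5, Multiset.map_map]
  congr 2
  refine Multiset.map_congr rfl fun a ha => ?_
  have h3 : eval a Q = 0 := (mem_roots hQ0).1 ha
  have h4 : a.im = 0 := hP a (by rw [hev, h3])
  simp only [Function.comp_apply, eval_sub, eval_X, eval_C]
  congr 1
  exact Complex.ext (by simp) (by simp [h4])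

def NN (R : ℝ[X]) : Prop := ∀ k, 0 ≤ R.coeff k

lemma NN.mul {R S : ℝ[X]} (hR : NN R) (hS : NN S) : NN (R * S) := by
  intro k
  rw [coeff_mul]
  exact Finset.sum_nonneg fun i _ => mul_nonneg (hR _) (hS _)

lemma nn_C {c : ℝ} (hc : 0 ≤ c) : NN (C c) := by
  intro k
  rw [coeff_C]
  split_ifs
  · exact hc
  · exact le_rfl

lemma nn_fac (r : ℝ) : NN (X ^ 2 + C (r ^ 2)) := by
  intro k
  rw [coeff_add, coeff_X_pow]
  have := nn_C (sq_nonneg r) k
  split_ifs
  · linarith
  · linarith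

lemma nn_prod (s : Multiset ℝ) (t : ℝ) : NN (s.map (fun x : ℝ => (X ^ 2 + C ((t - x) ^ 2) : ℝ[X]))).prod := by
  induction s using Multiset.induction with
  | empty =>
    rw [Multiset.map_zero, Multiset.prod_zero, ← C_1]
    exact nn_C zero_le_one
  | cons a s ih =>
    rw [Multiset.map_cons, Multiset.prod_cons]
    exact (nn_fac _).mul ih

lemma pair_fac (P : ℝ[X]) (hP : ∀ z : ℂ, aeval z P = 0 → z.im = 0) (t : ℝ) : ∃ R : ℝ[X], NN R ∧ ∀ w : ℂ,
    aeval ((t : ℂ) - I * w) P * aeval ((t : ℂ) + I * w) P = aeval w R := by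
  obtain ⟨c, s, h⟩ := real_fac P hP
  refine ⟨C (c ^ 2) * (s.map (fun x : ℝ => (X ^ 2 + C ((t - x) ^ 2) : ℝ[X]))).prod,
    (nn_C (sq_nonneg c)).mul (nn_prod s t), fun w => ?_⟩
  rw [h, h, map_mul, aeval_C, map_multiset_prod, Multiset.map_map]
  have e1 : (s.map ((⇑(aeval w)) ∘ fun x : ℝ => (X ^ 2 + C ((t - x) ^ 2) : ℝ[X]))) =
      s.map (fun x : ℝ => ((t : ℂ) - I * w - (x : ℂ)) * ((t : ℂ) + I * w - (x : ℂ))) := by
    refine Multiset.map_congr rfl fun x _ => ?_
    simp only [Function.comp_apply, map_add, map_pow, aeval_X, aeval_C]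
    have e2 : (algebraMap ℝ ℂ) (t - x) = (t : ℂ) - x := by
      rw [map_sub]; rfl
    rw [e2]
    linear_combination w ^ 2 * I_sq
  rw [e1, Multiset.prod_map_mul]
  have e3 : (algebraMap ℝ ℂ) (c ^ 2) = (c : ℂ) ^ 2 := by rw [map_pow]; rfl
  rw [e3]
  ring

lemma iter_aeval (R : ℝ[X]) (m : ℕ) (w : ℂ) :
    iteratedDeriv m (fun w : ℂ => aeval w R) w = aeval w (derivative^[m] R) := by
  induction m generalizing w with
  | zero => simp
  | succ m ih =>
    rw [iteratedDeriv_succ, funext ih, Polynomial.deriv_aeval, Function.iterate_succ_apply']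

lemma iter_aeval_zero {R : ℝ[X]} (hR : NN R) (m : ℕ) : 0 ≤ (iteratedDeriv m (fun w : ℂ => aeval w R) 0).re := by
  rw [iter_aeval]
  have h1 : aeval (0 : ℂ) (derivative^[m] R) = (((derivative^[m] R).coeff 0 : ℝ) : ℂ) := by
    simp [aeval_def, eval₂_at_zero]
  rw [h1, ofReal_re, coeff_iterate_derivative]
  have := hR (0 + m)
  positivity

/-! ## Locally uniform limits -/

lemma tlu_it {F : ℕ → ℂ → ℂ} {f : ℂ → ℂ} (hF : ∀ n, Differentiable ℂ (F n))
    (h : TendstoLocallyUniformly F f atTop) (m : ℕ) :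
    TendstoLocallyUniformly (fun n => iteratedDeriv m (F n)) (iteratedDeriv m f) atTop := by
  induction m with
  | zero => simpa using h
  | succ m ih =>
    have h1 := (tendstoLocallyUniformlyOn_univ.2 ih).deriv (Eventually.of_forall fun n =>
      ((hF n).contDiff (n := ⊤) |>.differentiable_iteratedDeriv m
        (by exact_mod_cast WithTop.coe_lt_top _)).differentiableOn) isOpen_univ
    rw [tendstoLocallyUniformlyOn_univ] at h1
    simp only [iteratedDeriv_succ]
    exact h1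

/-- the entire function with real zeros -/
lemma lim_nonneg {g : ℂ → ℂ} (hg : EG g) (hne : ∃ z, g z ≠ 0) (hz : ∀ z, g z = 0 → z.im = 0) (t : ℝ) (m : ℕ) :
    0 ≤ (iteratedDeriv m (fun w : ℂ => g ((t : ℂ) - I * w) * g ((t : ℂ) + I * w)) 0).re := by
  obtain ⟨P, hP1, hP2⟩ := t_had2 hg hne
  have hroot : ∀ (N : ℕ) (z : ℂ), aeval z (P N) = 0 → z.im = 0 := by
    intro N z h
    by_contra hc
    exact hc (hz z (hP1 N z h hc))
  have h1 := hP2.comp (fun w : ℂ => (t : ℂ) - I * w) (by fun_prop)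
  have h2 := hP2.comp (fun w : ℂ => (t : ℂ) + I * w) (by fun_prop)
  have hgc : Continuous g := hg.diff.continuous
  have h3 := h1.mul₀ h2 (hgc.comp (by fun_prop)) (hgc.comp (by fun_prop))
  have h4 := tlu_it (F := fun (N : ℕ) (w : ℂ) => aeval ((t : ℂ) - I * w) (P N) * aeval ((t : ℂ) + I * w) (P N))
    (f := fun w : ℂ => g ((t : ℂ) - I * w) * g ((t : ℂ) + I * w)) (fun N => by
      have hd : Differentiable ℂ fun z : ℂ => aeval z (P N) := Polynomial.differentiable_aeval _
      exact (hd.comp (by fun_prop : Differentiable ℂ fun w : ℂ => (t : ℂ) - I * w)).mul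
        (hd.comp (by fun_prop : Differentiable ℂ fun w : ℂ => (t : ℂ) + I * w))) h3 m
  have h5 := (tendstoLocallyUniformlyOn_univ.2 h4).tendsto_at (Set.mem_univ (0 : ℂ))
  have h6 := (Complex.continuous_re.tendsto _).comp h5
  refine ge_of_tendsto' h6 fun N => ?_
  obtain ⟨R, hR1, hR2⟩ := pair_fac (P N) (hroot N) t
  simp only [Function.comp_apply]
  rw [funext hR2]
  exact iter_aeval_zero hR1 m

/-! ## The power series -/

variable {X : ℂ → ℂ}

lemma has_lag (hX : Differentiable ℂ X) (t a : ℝ) :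
    HasSum (fun m : ℕ => lag X m t / m.factorial * a ^ m) (‖X (1 / 2 + a + t * I)‖ ^ 2) := by
  have hd := FG_diff (fx_diff hX t)
  have h1 := Complex.hasSum_re (Complex.hasSum_taylorSeries_of_entire hd 0 (a : ℂ))
  rw [FG_real, ofReal_re] at h1
  have e : fx X t a = X (1 / 2 + a + t * I) := by
    unfold fx
    congr 1
    ring
  rw [e] at h1
  refine h1.congr_fun fun m => ?_
  rw [lag_eq hX, sub_zero, smul_eq_mul, smul_eq_mul, ← mul_assoc]
  have e2 : ((m.factorial : ℂ))⁻¹ * (a : ℂ) ^ m = ((((m.factorial : ℝ))⁻¹ * a ^ m : ℝ) : ℂ) := by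
    push_cast
    ring
  rw [e2, re_ofReal_mul]
  ring

lemma mono (hX : Differentiable ℂ X) (t : ℝ) (h : ∀ m : ℕ, 0 ≤ lag X m t) :
    MonotoneOn (fun a : ℝ => ‖X (1 / 2 + a + t * I)‖) (Ici 0) := by
  intro a ha b _ hab
  have ha0 : (0 : ℝ) ≤ a := ha
  have h1 : ‖X (1 / 2 + a + t * I)‖ ^ 2 ≤ ‖X (1 / 2 + b + t * I)‖ ^ 2 := by
    refine hasSum_le (fun m => ?_) (has_lag hX t a) (has_lag hX t b)
    have := h m
    gcongr
  exact (pow_le_pow_iff_left₀ (norm_nonneg _) (norm_nonneg _) two_ne_zero).1 h1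

lemma zero_of (hX : Differentiable ℂ X) (hs : ∀ t, Sf (fx X t)) {t a : ℝ} (h : ∀ m : ℕ, 0 ≤ lag X m t) (ha : a ≠ 0)
    (h0 : X (1 / 2 + a + t * I) = 0) (s : ℂ) : X s = 0 := by
  -- at `|a|`
  have h1 : ‖X (1 / 2 + (|a| : ℝ) + t * I)‖ ^ 2 = 0 := by
    have e : ∀ b : ℝ, ((‖X (1 / 2 + b + t * I)‖ ^ 2 : ℝ) : ℂ) = FG (fx X t) b := by
      intro b
      have e1 : fx X t b = X (1 / 2 + b + t * I) := by
        unfold fx
        congr 1
        ring
      rw [FG_real, e1]
    rcases abs_choice a with h2 | h2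
    · rw [h2, h0]; simp
    · rw [h2]
      have h3 := e (-a)
      rw [ofReal_neg a, FG_ev (hs t), ← e a, h0] at h3
      have h4 := ofReal_injective h3
      rw [ofReal_neg, h4]
      simp
  have h2 := has_lag hX t |a|
  rw [h1] at h2
  have ha' : 0 < |a| := abs_pos.2 ha
  have h3 : ∀ m : ℕ, lag X m t = 0 := by
    intro m
    have h4 := (hasSum_zero_iff_of_nonneg (fun m => by have := h m; positivity)).1 h2
    have h5 := congrFun h4 m
    simp only [Pi.zero_apply] at h5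
    have h6 : (0 : ℝ) < m.factorial := by exact_mod_cast m.factorial_pos
    rcases mul_eq_zero.1 h5 with h7 | h7
    · rcases div_eq_zero_iff.1 h7 with h8 | h8
      · exact h8
      · exact absurd h8 h6.ne'
    · exact absurd h7 (pow_ne_zero m ha'.ne')
  have h4 : ∀ b : ℝ, X (1 / 2 + b + t * I) = 0 := by
    intro b
    have h5 : ‖X (1 / 2 + b + t * I)‖ ^ 2 = 0 := by
      have h6 := has_lag hX t b
      simp only [h3, zero_div, zero_mul] at h6
      exact h6.unique hasSum_zero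
    have h6 := pow_eq_zero_iff (two_ne_zero) |>.1 h5
    exact norm_eq_zero.1 h6
  -- identity theorem
  have h5 : AnalyticOnNhd ℂ (fun w => X (1 / 2 + w + t * I)) univ := fun w _ =>
    (hX.comp (by fun_prop : Differentiable ℂ fun w : ℂ => 1 / 2 + w + t * I)).analyticAt w
  have h6 : ∃ᶠ w in 𝓝[≠] (0 : ℂ), X (1 / 2 + w + t * I) = 0 := by
    have h7 : Tendsto (fun n : ℕ => (((1 / ((n : ℝ) + 1) : ℝ)) : ℂ)) atTop (𝓝[≠] 0) := by
      rw [tendsto_nhdsWithin_iff]
      refine ⟨?_, Eventually.of_forall fun n => ?_⟩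
      · have h8 := (Complex.continuous_ofReal.tendsto 0).comp (tendsto_one_div_add_atTop_nhds_zero_nat (𝕜 := ℝ))
        rw [ofReal_zero] at h8
        exact h8
      · have h8 : (0 : ℝ) < 1 / ((n : ℝ) + 1) := by positivity
        show (((1 / ((n : ℝ) + 1) : ℝ)) : ℂ) ≠ 0
        exact ofReal_ne_zero.2 h8.ne'
    exact h7.frequently (Frequently.of_forall fun n => h4 _)
  have h7 := h5.eqOn_zero_of_preconnected_of_frequently_eq_zero isPreconnected_univ (mem_univ 0) h6
  have h8 := h7 (mem_univ (s - 1 / 2 - t * I))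
  simp only [Pi.zero_apply] at h8
  rw [← h8]
  congr 1
  ring

lemma eg_of {ε u : ℂ} (hX : Differentiable ℂ X) (hε : ‖ε‖ = 1) (hfe : ∀ s, X s = ε * conj (X (1 - conj s)))
    (hgr : GrC X) (hu : u ^ 2 * ε = 1) : EG fun z : ℂ => u * X (1 / 2 + I * z) := by
  have hnu : ‖u‖ = 1 := by
    have h1 := congrArg norm hu
    rw [norm_mul, norm_pow, hε, mul_one, norm_one] at h1
    exact (pow_eq_one_iff_of_nonneg (norm_nonneg _) two_ne_zero).1 h1
  refine ⟨(hX.comp (by fun_prop : Differentiable ℂ fun z : ℂ => 1 / 2 + I * z)).const_mul u, fun z => ?_, ?_⟩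
  · have h1 : u * conj u = 1 := by
      rw [mul_conj, normSq_eq_norm_sq, hnu]
      simp
    have h2 : u * ε = conj u := by
      linear_combination (conj u) * hu - (u * ε) * h1
    have h3 := hfe (1 / 2 + I * conj z)
    have h4 : 1 - conj (1 / 2 + I * conj z) = 1 / 2 + I * z := by
      simp only [map_add, map_mul, map_div₀, map_one, map_ofNat, conj_I, Complex.conj_conj]
      ring
    rw [h4] at h3
    show u * X (1 / 2 + I * conj z) = conj (u * X (1 / 2 + I * z))
    rw [h3, map_mul, ← mul_assoc, h2]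
  · intro e he
    obtain ⟨K, hK, h⟩ := hgr (e / 2) (by positivity)
    refine ⟨K * Real.exp (e / 4), by positivity, fun s => ?_⟩
    rw [norm_mul, hnu, one_mul]
    refine (h _).trans ?_
    rw [mul_assoc, ← Real.exp_add]
    have h1 : ‖(1 / 2 + I * s : ℂ)‖ ≤ 1 / 2 + ‖s‖ := by
      refine (norm_add_le _ _).trans ?_
      rw [norm_mul, norm_I, one_mul]
      norm_num
    have h2 : ‖(1 / 2 + I * s : ℂ)‖ ^ 2 ≤ 1 / 2 + 2 * ‖s‖ ^ 2 := by
      have h3 := norm_nonneg (1 / 2 + I * s : ℂ)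
      have h4 := norm_nonneg s
      nlinarith [sq_nonneg (1 / 2 - ‖s‖)]
    gcongr
    nlinarith

lemma fg_eq {ε u : ℂ} (hfe : ∀ s, X s = ε * conj (X (1 - conj s))) (hu : u ^ 2 * ε = 1) (t : ℝ) (w : ℂ) :
    FG (fx X t) w = (u * X (1 / 2 + I * ((t : ℂ) - I * w))) * (u * X (1 / 2 + I * ((t : ℂ) + I * w))) := by
  have e1 : (1 / 2 : ℂ) + I * ((t : ℂ) - I * w) = 1 / 2 + t * I + w := by
    linear_combination -w * I_sq
  have e2 := hfe (1 / 2 + I * ((t : ℂ) + I * w))
  have e3 : 1 - conj (1 / 2 + I * ((t : ℂ) + I * w)) = 1 / 2 + t * I + conj w := by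
    simp only [map_add, map_mul, map_div₀, map_one, map_ofNat, conj_I, conj_ofReal]
    linear_combination -(conj w) * I_sq
  rw [e3] at e2
  rw [e1, e2]
  unfold FG fx
  linear_combination -(X (1 / 2 + t * I + w) * conj (X (1 / 2 + t * I + conj w))) * hu

theorem t_crit : S_crit := by
  intro X ε hX hε hfe hgr hne
  have hs : ∀ t, Sf (fx X t) := fun t => fx_sf hε hfe t
  have hε0 : ε ≠ 0 := by
    rintro rfl
    rw [norm_zero] at hε
    exact zero_ne_one hε
  refine ⟨⟨fun hz t m => ?_, fun h s h0 => ?_⟩, fun t h => mono hX t h⟩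
  · obtain ⟨u, hu⟩ := IsAlgClosed.exists_pow_nat_eq (ε⁻¹) (n := 2) (by norm_num)
    have hu1 : u ^ 2 * ε = 1 := by rw [hu, inv_mul_cancel₀ hε0]
    have hu0 : u ≠ 0 := by
      rintro rfl
      simp at hu1
    have hg := eg_of hX hε hfe hgr hu1
    rw [lag_eq hX, funext (fg_eq hfe hu1 t)]
    refine lim_nonneg hg ?_ (fun z hzz => ?_) t m
    · obtain ⟨s, hs⟩ := hne
      refine ⟨-I * (s - 1 / 2), ?_⟩
      have e : (1 / 2 : ℂ) + I * (-I * (s - 1 / 2)) = s := by
        linear_combination -(s - 1 / 2) * I_sq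
      show u * X (1 / 2 + I * (-I * (s - 1 / 2))) ≠ 0
      rw [e]
      exact mul_ne_zero hu0 hs
    · have h1 := (mul_eq_zero.1 hzz).resolve_left hu0
      have h2 := hz _ h1
      have h3 : (1 / 2 + I * z : ℂ).re = 1 / 2 - z.im := by
        simp only [add_re, mul_re, I_re, I_im, zero_mul, one_mul, zero_sub]
        norm_num
        ring
      rw [h3] at h2
      linarith
  · by_contra hc
    obtain ⟨a, ha⟩ : ∃ a : ℝ, a = s.re - 1 / 2 := ⟨_, rfl⟩
    have ha0 : a ≠ 0 := by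
      rw [ha]
      intro h1
      exact hc (by linarith)
    have e : (1 / 2 : ℂ) + a + s.im * I = s := by
      rw [ha]
      apply Complex.ext
      · simp
      · simp
    obtain ⟨s', hs'⟩ := hne
    exact hs' (zero_of hX hs (h s.im) ha0 (by rw [e]; exact h0) s')

end

end Pool.Agent.J4H7.LG
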